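import Pool.Agent.H.MP_76f918_co.A

set_option autoImplicit false

namespace Pool.Agent.H.MP_4792b2_co

open Finset Pool.Agent.H.MP_76f918_co

variable {α β : Type} [DecidableEq α] [DecidableEq β] {r : Finset α → ℕ}

def Hall (N : α → Finset β) (I : Finset α) : Prop := ∀ S ⊆ I, S.card ≤ (S.biUnion N).card

lemma skew0 (h : RK r) {P P' Q Q' : Finset α} (a : P ⊆ P') (b : Q ⊆ Q') :
    r P + r Q + r (P' ∪ Q') ≤ r (P ∪ Q) + r P' + r Q' := by
  have h1 := h.sub (P ∪ Q) P'
  have h2 := h.sub (P' ∪ Q) Q'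
  have h3 := h.mono P ((P ∪ Q) ∩ P') (subset_inter subset_union_left a)
  have h4 := h.mono Q ((P' ∪ Q) ∩ Q') (subset_inter subset_union_right b)
  have h5 := h.mono (P' ∪ Q) (P ∪ Q ∪ P') (by intro x; simp only [mem_union]; tauto)
  have h6 := h.mono (P' ∪ Q') (P' ∪ Q ∪ Q') (by intro x; simp only [mem_union]; tauto)
  omega

lemma le_add (h : RK r) (Y S : Finset α) : r Y ≤ r S + (Y \ S).card := by
  have h1 := h.sub S (Y \ S)
  have h2 := h.mono Y (S ∪ Y \ S) (by intro x; simp only [mem_union, mem_sdiff]; tauto)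
  have h3 := h.le_card (Y \ S)
  omega

lemma indep_sub (h : RK r) {X Y : Finset α} (hY : r Y = Y.card) (hX : X ⊆ Y) : r X = X.card := by
  have h1 := le_add h Y X
  have h3 := h.le_card X
  have h4 := card_sdiff_add_card_eq_card hX
  omega

lemma basis (h : RK r) {I Y : Finset α} (hI : r I = I.card) (hIY : I ⊆ Y) :
    ∃ B, I ⊆ B ∧ B ⊆ Y ∧ r B = B.card ∧ r B = r Y ∧ ∀ y ∈ Y, y ∉ B →
      r (insert y B) ≠ (insert y B).card := by
  obtain ⟨B, hB, hmax⟩ := exists_max_image (Y.powerset.filter fun B => I ⊆ B ∧ r B = B.card) card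
    ⟨I, by simp [hI, hIY]⟩
  simp only [mem_filter, mem_powerset, and_imp] at hB hmax
  have k : ∀ y ∈ Y, y ∉ B → r (insert y B) ≠ (insert y B).card := fun y hy hyB e => by
    have := hmax _ (insert_subset hy hB.1) (hB.2.1.trans (subset_insert _ _)) e
    rw [card_insert_of_notMem hyB] at this; omega
  refine ⟨B, hB.2.1, hB.1, hB.2.2, ?_, k⟩
  have h1 := h.Cl_all (X := B) (W := Y) (fun y hy => by
    by_cases c : y ∈ B
    · exact Cl_mem c
    · have := k y hy c
      have := h.ins B y
      have := hB.2.2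
      rw [card_insert_of_notMem c] at *
      unfold Cl; omega)
  rw [union_eq_left.2 hB.1] at h1
  exact le_antisymm (h.mono _ _ hB.1) h1

section pres
variable {N : α → Finset β} (h : RK r) (hN : ∀ I, r I = I.card ↔ Hall N I)
include h hN

lemma rk_le (S : Finset α) : r S ≤ (S.biUnion N).card := by
  obtain ⟨B, _, b, c, d, _⟩ := basis h (I := ∅) (Y := S) (by simp [h.emp]) (empty_subset _)
  have := (hN B).1 c B Subset.rfl
  have := card_le_card (biUnion_subset_biUnion_of_subset_left N b)
  omega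

lemma KO (Y : Finset α) : ∃ S ⊆ Y, (S.biUnion N).card + (Y \ S).card ≤ r Y := by
  obtain ⟨B, _, b, c, d, e⟩ := basis h (I := ∅) (Y := Y) (by simp [h.emp]) (empty_subset _)
  have hB := (hN B).1 c
  obtain ⟨T, hT, hmax⟩ := exists_max_image
    (B.powerset.filter fun T => (T.biUnion N).card ≤ T.card) card ⟨∅, by simp⟩
  simp only [mem_filter, mem_powerset, and_imp] at hT hmax
  have tight : ∀ T' ⊆ B, (T'.biUnion N).card ≤ T'.card → T' ⊆ T := fun T' a t => by
    have h1 := card_union_add_card_inter (T.biUnion N) (T'.biUnion N)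
    have h2 := card_union_add_card_inter T T'
    have h3 := hB (T ∩ T') (inter_subset_left.trans hT.1)
    have h4 := card_le_card (show (T ∩ T').biUnion N ⊆ T.biUnion N ∩ T'.biUnion N from
      subset_inter (biUnion_subset_biUnion_of_subset_left N inter_subset_left)
        (biUnion_subset_biUnion_of_subset_left N inter_subset_right))
    have h5 := hmax (T ∪ T') (union_subset hT.1 a) (by rw [union_biUnion]; have := hT.2; omega)
    rw [eq_of_subset_of_card_le subset_union_left h5]
    exact subset_union_right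
  have key : (T ∪ Y \ B).biUnion N ⊆ T.biUnion N := by
    rw [union_biUnion]
    refine union_subset Subset.rfl (biUnion_subset.2 fun y hy => ?_)
    obtain ⟨y1, y2⟩ := mem_sdiff.1 hy
    have := e y y1 y2
    rw [Ne, hN] at this
    simp only [Hall, not_forall, not_le] at this
    obtain ⟨S, s1, s2⟩ := this
    have hyS : y ∈ S := by
      by_contra c
      have := hB S (fun x hx => (mem_insert.1 (s1 hx)).resolve_left (by rintro rfl; exact c hx))
      omega
    have s3 : S.erase y ⊆ B := fun x hx =>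
      (mem_insert.1 (s1 (mem_of_mem_erase hx))).resolve_left (mem_erase.1 hx).1
    have h1 := hB _ s3
    have h2 := card_erase_add_one hyS
    have h3 := biUnion_subset_biUnion_of_subset_left N (erase_subset y S)
    have h4 := card_le_card h3
    have h5 := eq_of_subset_of_card_le h3 (by omega)
    refine (subset_biUnion_of_mem N hyS).trans ?_
    rw [← h5]
    exact biUnion_subset_biUnion_of_subset_left N (tight _ s3 (by omega))
  refine ⟨T ∪ Y \ B, union_subset (hT.1.trans b) sdiff_subset, ?_⟩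
  have h1 := card_le_card key
  have h2 := card_le_card (show Y \ (T ∪ Y \ B) ⊆ B \ T by
    intro x; simp only [mem_sdiff, mem_union]; tauto)
  have h3 := card_sdiff_add_card_eq_card hT.1
  have := hT.2
  omega

end pres

variable [Fintype α]

def dual (r : Finset α → ℕ) (X : Finset α) : ℕ := X.card + r Xᶜ - r univ

lemma dual_add (h : RK r) (X : Finset α) : dual r X + r univ = X.card + r Xᶜ := by
  have := le_add h univ Xᶜ
  rw [show univ \ Xᶜ = X by simp [← compl_eq_univ_sdiff]] at this
  unfold dual; omega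

lemma dual_RK (h : RK r) : RK (dual r) := by
  refine ⟨by simp [dual], fun X Y hXY => ?_, fun X Y => ?_, fun p => ?_⟩
  · have h1 := dual_add h X
    have h2 := dual_add h Y
    have h3 := le_add h Xᶜ Yᶜ
    rw [show Xᶜ \ Yᶜ = Y \ X by ext; simp only [mem_sdiff, mem_compl]; tauto] at h3
    have h4 := card_sdiff_add_card_eq_card hXY
    omega
  · have h1 := dual_add h X
    have h2 := dual_add h Y
    have h3 := dual_add h (X ∪ Y)
    have h4 := dual_add h (X ∩ Y)
    have h5 := h.sub Xᶜ Yᶜ
    have h6 := card_union_add_card_inter X Y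
    rw [compl_union] at h3
    rw [compl_inter] at h4
    omega
  · have h1 := dual_add h {p}
    have h2 := h.mono {p}ᶜ univ (subset_univ _)
    rw [card_singleton] at h1
    omega

lemma clone {γ : Type} [DecidableEq γ] {N : α → Finset β} {N' : α → Finset γ} (h : RK r)
    (hN : ∀ I, r I = I.card ↔ Hall N I) (hN' : ∀ I, dual r I = I.card ↔ Hall N' I)
    {C : Finset α} {e f : α} (hC : ¬ Hall N C) (he : e ∈ C) (hCe : Hall N (C.erase e))
    (hef : N' e = N' f) : N f ⊆ C.biUnion N := by
  by_cases hf : f ∈ C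
  · exact subset_biUnion_of_mem N hf
  intro w hw
  by_contra hwC
  have h1 : Hall N (insert f (C.erase e)) := fun S hS => by
    have s1 : S.erase f ⊆ C.erase e := fun x hx =>
      (mem_insert.1 (hS (mem_of_mem_erase hx))).resolve_left (mem_erase.1 hx).1
    have s2 := hCe _ s1
    by_cases c : f ∈ S
    · have s3 := card_erase_add_one c
      have s4 := card_lt_card (show (S.erase f).biUnion N ⊂ S.biUnion N from
        ⟨biUnion_subset_biUnion_of_subset_left N (erase_subset _ _), fun a => hwC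
          (biUnion_subset_biUnion_of_subset_left N (s1.trans (erase_subset _ _))
            (a (mem_biUnion.2 ⟨f, c, hw⟩)))⟩)
      omega
    · rwa [erase_eq_of_notMem c] at s2
  obtain ⟨B, b1, _, b2, b3, _⟩ := basis h ((hN _).2 h1) (subset_univ _)
  have sub : ∀ B', r B' = B'.card → insert e (C.erase e) ⊆ B' → False := fun B' a b => by
    rw [insert_erase he] at b
    exact hC ((hN C).1 (indep_sub h a b))
  have heB : e ∉ B := fun a => sub B b2 (insert_subset a ((subset_insert _ _).trans b1))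
  have hfB : f ∈ B := b1 (mem_insert_self _ _)
  have h2 : Hall N' Bᶜ := (hN' _).1 (by have := dual_add h Bᶜ; rw [compl_compl] at this; omega)
  have h3 : Hall N' (insert e (B.erase f))ᶜ := fun S hS => by
    have heS : e ∉ S := fun a => by simpa using hS a
    by_cases c : f ∈ S
    · have := h2 (insert e (S.erase f)) (insert_subset (mem_compl.2 heB) fun x hx => by
        have := hS (mem_of_mem_erase hx)
        have := (mem_erase.1 hx).1
        simp only [mem_compl, mem_insert, mem_erase] at *; tauto)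
      rw [card_insert_of_notMem (fun a => heS (mem_of_mem_erase a)), card_erase_add_one c,
        biUnion_insert, hef, ← biUnion_insert, insert_erase c] at this
      exact this
    · refine h2 S fun x hx => ?_
      have := hS hx
      have : x ≠ f := by rintro rfl; exact c hx
      simp only [mem_compl, mem_insert, mem_erase] at *; tauto
  have h4 := dual_add h (insert e (B.erase f))ᶜ
  rw [(hN' _).2 h3, compl_compl] at h4
  refine sub (insert e (B.erase f)) ?_ (insert_subset_insert _ fun x hx => mem_erase.2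
    ⟨by rintro rfl; exact hf (mem_of_mem_erase hx), b1 (mem_insert_of_mem hx)⟩)
  rw [card_insert_of_notMem (fun a => heB (mem_of_mem_erase a)), card_erase_add_one hfB]
  omega

/-- the one-sided quantity in a Hall violation -/
def val (N : α → Finset β) (T X S : Finset α) : ℤ :=
  ((S.biUnion N \ T.biUnion N).card : ℤ) - S.card - (X ∩ T).card

omit [Fintype α] in
lemma card3 (P Q R : Finset β) : (P ∪ Q ∪ R).card + ((P ∩ Q) \ R).card =
    R.card + (P \ R).card + (Q \ R).card := by
  have h1 := card_sdiff_add_card (P ∪ Q) R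
  have h2 := card_union_add_card_inter (P \ R) (Q \ R)
  rw [← union_sdiff_distrib, show P \ R ∩ (Q \ R) = (P ∩ Q) \ R by
    ext; simp only [mem_inter, mem_sdiff]; tauto] at h2
  omega

theorem main {γ : Type} [DecidableEq γ] {N : α → Finset β} {N' : α → Finset γ} (h : RK r)
    (hN : ∀ I, r I = I.card ↔ Hall N I) (hN' : ∀ I, dual r I = I.card ↔ Hall N' I)
    {l : ℕ} {U : Finset α} (hU : r U + r Uᶜ ≤ l + r univ) (𝒮 : Finset (Finset α))
    (h1 : ∀ X ∈ 𝒮, X ⊆ U) (h2 : ∀ X ∈ 𝒮, ∀ X' ∈ 𝒮, X ≠ X' →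
      ¬ ∀ Z ⊆ Uᶜ, (r (X ∪ Z) = (X ∪ Z).card ↔ r (X' ∪ Z) = (X' ∪ Z).card)) :
    𝒮.card ≤ 2 ^ (2 ^ (2 ^ l + l) * (2 ^ l * (2 ^ l * l))) + 1 := by
  classical
  obtain ⟨SU, u1, u2⟩ := KO h hN U
  obtain ⟨SV, v1, v2⟩ := KO h hN Uᶜ
  set G := (SU ∪ SV)ᶜ with hG
  have cG : G.card = (U \ SU).card + (Uᶜ \ SV).card := by
    rw [← card_union_of_disjoint (by
      rw [disjoint_left]; intro x; simp only [mem_sdiff, mem_compl]; tauto)]
    congr 1; ext x
    have := @u1 x; have := @v1 x
    simp only [hG, mem_compl, mem_union, mem_sdiff] at *; tauto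
  have a1 := le_add h U SU
  have a2 := le_add h Uᶜ SV
  have a3 := rk_le h hN SU
  have a4 := rk_le h hN SV
  have a5 := h.sub SU SV
  have a6 := dual_add h G
  rw [hG, compl_compl, ← hG] at a6
  obtain ⟨S', s1, s2⟩ := KO (dual_RK h) hN' G
  set Θ := G.image N' with hΘ
  have cΘ : Θ.card ≤ 2 ^ l + l := by
    have b1 := card_le_card (show Θ ⊆ (S'.biUnion N').powerset ∪ (G \ S').image N' by
      intro t ht
      obtain ⟨x, hx, rfl⟩ := mem_image.1 ht
      by_cases c : x ∈ S'
      · exact mem_union_left _ (mem_powerset.2 (subset_biUnion_of_mem N' c))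
      · exact mem_union_right _ (mem_image_of_mem _ (mem_sdiff.2 ⟨hx, c⟩)))
    have b2 := card_union_le (S'.biUnion N').powerset ((G \ S').image N')
    have b3 := card_image_le (s := G \ S') (f := N')
    have b4 : 2 ^ (S'.biUnion N').card ≤ 2 ^ l := Nat.pow_le_pow_right (by omega) (by omega)
    rw [card_powerset] at b2
    omega
  set W := SU.biUnion N ∩ SV.biUnion N with hW
  have cW : W.card ≤ l := by
    have b1 := card_union_add_card_inter (SU.biUnion N) (SV.biUnion N)
    have b2 := rk_le h hN (SU ∪ SV)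
    rw [union_biUnion] at b2
    rw [← hW] at b1
    omega
  let T : Finset (Finset γ) → Finset α := fun τ => G.filter fun x => N' x ∈ τ
  have TG : ∀ τ, ∀ x ∈ T τ, x ∉ SU ∧ x ∉ SV := fun τ x hx => by
    have := (mem_filter.1 hx).1
    simpa [hG] using this
  have form : ∀ τ (X Z S S' : Finset α), X ⊆ U → Z ⊆ Uᶜ → S ⊆ X ∩ SU → S' ⊆ Z ∩ SV →
      ((S.biUnion N ∪ S'.biUnion N ∪ (T τ).biUnion N).card : ℤ) -
        ((S ∪ X ∩ T τ).card + (S' ∪ Z ∩ T τ).card) = ((T τ).biUnion N).card + val N (T τ) X S +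
        val N (T τ) Z S' - (((S.biUnion N ∩ W) ∩ (S'.biUnion N ∩ W)) \ (T τ).biUnion N).card := by
    intro τ X Z S S' hX hZ hS hS'
    have b1 := card3 (S.biUnion N) (S'.biUnion N) ((T τ).biUnion N)
    have b2 : (S.biUnion N ∩ W) ∩ (S'.biUnion N ∩ W) = S.biUnion N ∩ S'.biUnion N := by
      have c1 := biUnion_subset_biUnion_of_subset_left N (hS.trans inter_subset_right)
      have c2 := biUnion_subset_biUnion_of_subset_left N (hS'.trans inter_subset_right)
      ext w; have := @c1 w; have := @c2 w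
      simp only [hW, mem_inter] at *; tauto
    rw [b2, card_union_of_disjoint (s := S), card_union_of_disjoint (s := S')]
    · unfold val; push_cast; omega
    · rw [disjoint_left]; intro x a b
      exact (TG τ x (mem_inter.1 b).2).2 (mem_inter.1 (hS' a)).2
    · rw [disjoint_left]; intro x a b
      exact (TG τ x (mem_inter.1 b).2).1 (mem_inter.1 (hS a)).2
  have NQ : ∀ τ (X Z S S' : Finset α), ((S ∪ X ∩ T τ) ∪ (S' ∪ Z ∩ T τ)).biUnion N ⊆
      S.biUnion N ∪ S'.biUnion N ∪ (T τ).biUnion N := by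
    intro τ X Z S S' w
    simp only [mem_biUnion, mem_union, mem_inter]
    rintro ⟨x, ((a | a) | (a | a)), b⟩
    · exact Or.inl (Or.inl ⟨x, a, b⟩)
    · exact Or.inr ⟨x, a.2, b⟩
    · exact Or.inl (Or.inr ⟨x, a, b⟩)
    · exact Or.inr ⟨x, a.2, b⟩
  have hmin : ∀ (τ : Finset (Finset γ)) (B : Finset β), ∃ m : ℤ, ∀ Z S' : Finset α, Z ⊆ Uᶜ →
      r Z = Z.card → S' ⊆ Z ∩ SV → S'.biUnion N ∩ W = B → m ≤ val N (T τ) Z S' ∧
      ∃ Z0 S0 : Finset α, Z0 ⊆ Uᶜ ∧ r Z0 = Z0.card ∧ S0 ⊆ Z0 ∩ SV ∧ S0.biUnion N ∩ W = B ∧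
        m = val N (T τ) Z0 S0 := by
    intro τ B
    set F := (univ : Finset (Finset α × Finset α)).filter fun p => p.1 ⊆ Uᶜ ∧ r p.1 = p.1.card ∧
      p.2 ⊆ p.1 ∩ SV ∧ p.2.biUnion N ∩ W = B with hF
    rcases F.eq_empty_or_nonempty with e | e
    · refine ⟨0, fun Z S' a b c d => ?_⟩
      have : (Z, S') ∈ F := mem_filter.2 ⟨mem_univ _, a, b, c, d⟩
      rw [e] at this; simp at this
    · obtain ⟨p, hp, hm⟩ := exists_min_image F (fun p => val N (T τ) p.1 p.2) e
      obtain ⟨_, p1, p2, p3, p4⟩ := mem_filter.1 hp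
      exact ⟨_, fun Z S' a b c d => ⟨hm (Z, S') (mem_filter.2 ⟨mem_univ _, a, b, c, d⟩),
        p.1, p.2, p1, p2, p3, p4, rfl⟩⟩
  choose m hm using hmin
  set P := Θ.powerset ×ˢ (W.powerset ×ˢ (W.powerset ×ˢ range l)) with hP
  let sg : Finset α → Finset (Finset (Finset γ) × Finset β × Finset β × ℕ) := fun X =>
    P.filter fun q => ∃ S ⊆ X ∩ SU, S.biUnion N ∩ W = q.2.1 ∧ (((T q.1).biUnion N).card : ℤ) +
      val N (T q.1) X S + m q.1 q.2.2.1 - ((q.2.1 ∩ q.2.2.1) \ (T q.1).biUnion N).card + q.2.2.2 < 0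
  have dj : ∀ X Z : Finset α, X ⊆ U → Z ⊆ Uᶜ → Disjoint X Z := fun X Z a b => by
    rw [disjoint_left]; intro x c d; exact mem_compl.1 (b d) (a c)
  have key : ∀ X X' Z : Finset α, X ⊆ U → X' ⊆ U → Z ⊆ Uᶜ → r X = X.card → sg X = sg X' →
      r (X' ∪ Z) = (X' ∪ Z).card → r (X ∪ Z) = (X ∪ Z).card := by
    intro X X' Z hX hX' hZ iX hs i'
    have iZ := indep_sub h i' subset_union_right
    by_contra dep
    rw [hN] at dep i'
    obtain ⟨C, hC, hCm⟩ := exists_min_image ((X ∪ Z).powerset.filter fun C => ¬ Hall N C) card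
      ⟨X ∪ Z, mem_filter.2 ⟨mem_powerset_self _, dep⟩⟩
    simp only [mem_filter, mem_powerset, and_imp] at hC hCm
    have er : ∀ e ∈ C, Hall N (C.erase e) := fun e he => by
      by_contra c
      have := hCm _ ((erase_subset _ _).trans hC.1) c
      have := card_erase_add_one he
      omega
    have viol : (C.biUnion N).card < C.card := by
      by_contra c
      refine hC.2 fun S hS => ?_
      by_cases d : S = C
      · rw [d]; omega
      · obtain ⟨e, e1, e2⟩ := exists_of_ssubset (show S ⊂ C from ⟨hS, fun a => d (Subset.antisymm hS a)⟩)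
        exact er e e1 S fun x hx => mem_erase.2 ⟨by rintro rfl; exact e2 hx, hS hx⟩
    set τ := (C ∩ G).image N' with hτ
    have f1 := form τ X Z (C ∩ (X ∩ SU)) (C ∩ (Z ∩ SV)) hX hZ inter_subset_right inter_subset_right
    have f2 := card_le_card (show (C ∩ (X ∩ SU)).biUnion N ∪ (C ∩ (Z ∩ SV)).biUnion N ∪
        (T τ).biUnion N ⊆ C.biUnion N from union_subset (union_subset
      (biUnion_subset_biUnion_of_subset_left N inter_subset_left)
      (biUnion_subset_biUnion_of_subset_left N inter_subset_left)) (biUnion_subset.2 fun f hf => by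
        obtain ⟨e, he, hef⟩ := mem_image.1 (mem_filter.1 hf).2
        exact clone h hN hN' hC.2 (mem_inter.1 he).1 (er e (mem_inter.1 he).1) hef))
    have f3 := card_le_card (show C ⊆ (C ∩ (X ∩ SU) ∪ X ∩ T τ) ∪ (C ∩ (Z ∩ SV) ∪ Z ∩ T τ) by
      intro x hx
      have c1 := hC.1 hx
      have c2 : x ∈ G → x ∈ T τ := fun a =>
        mem_filter.2 ⟨a, mem_image_of_mem _ (mem_inter.2 ⟨hx, a⟩)⟩
      have := @hX x; have := @hZ x; have := @u1 x; have := @v1 x
      simp only [hG, mem_union, mem_inter, mem_compl] at *; tauto)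
    have f4 := card_union_le (C ∩ (X ∩ SU) ∪ X ∩ T τ) (C ∩ (Z ∩ SV) ∪ Z ∩ T τ)
    obtain ⟨m1, Z0, S0, z1, z2, z3, z4, z5⟩ := hm τ _ Z (C ∩ (Z ∩ SV)) hZ iZ inter_subset_right rfl
    have g1 := form τ X Z0 (C ∩ (X ∩ SU)) S0 hX z1 inter_subset_right z3
    have sX : C ∩ (X ∩ SU) ∪ X ∩ T τ ⊆ X :=
      union_subset (inter_subset_right.trans inter_subset_left) inter_subset_left
    have sZ : S0 ∪ Z0 ∩ T τ ⊆ Z0 := union_subset (z3.trans inter_subset_left) inter_subset_left
    have g2 := skew0 h (sX.trans hX) (sZ.trans z1)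
    rw [indep_sub h iX sX, indep_sub h z2 sZ, union_compl] at g2
    have g3 := (rk_le h hN _).trans (card_le_card (NQ τ X Z0 (C ∩ (X ∩ SU)) S0))
    rw [z4, ← z5] at g1
    obtain ⟨j, hj⟩ := Int.eq_ofNat_of_zero_le (sub_nonneg.2 m1)
    have mem : (τ, (C ∩ (X ∩ SU)).biUnion N ∩ W, (C ∩ (Z ∩ SV)).biUnion N ∩ W, j) ∈ sg X := by
      refine mem_filter.2 ⟨?_, _, inter_subset_right, rfl, by simp only []; omega⟩
      simp only [hP, mem_product, mem_powerset, mem_range]
      exact ⟨image_subset_image inter_subset_right, inter_subset_right, inter_subset_right, by omega⟩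
    rw [hs] at mem
    obtain ⟨_, S1, t1, t2, t3⟩ := mem_filter.1 mem
    simp only [] at t2 t3
    have k1 := form τ X' Z S1 (C ∩ (Z ∩ SV)) hX' hZ t1 inter_subset_right
    have sX' : S1 ∪ X' ∩ T τ ⊆ X' := union_subset (t1.trans inter_subset_left) inter_subset_left
    have sZ' : C ∩ (Z ∩ SV) ∪ Z ∩ T τ ⊆ Z :=
      union_subset (inter_subset_right.trans inter_subset_left) inter_subset_left
    have k2 := (i' _ (union_subset_union sX' sZ')).trans
      (card_le_card (NQ τ X' Z S1 (C ∩ (Z ∩ SV))))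
    rw [card_union_of_disjoint (dj _ _ (sX'.trans hX') (sZ'.trans hZ))] at k2
    rw [t2] at k1
    omega
  have cP : P.card ≤ 2 ^ (2 ^ l + l) * (2 ^ l * (2 ^ l * l)) := by
    simp only [hP, card_product, card_powerset, card_range]
    gcongr <;> omega
  have := card_le_card_of_injOn (s := 𝒮) (t := insertNone P.powerset)
    (fun X => if r X = X.card then some (sg X) else none) (fun X _ => by
      by_cases c : r X = X.card
      · simp only [c, if_true, mem_coe, some_mem_insertNone, mem_powerset]; exact filter_subset _ _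
      · simp [c]) (fun X hX X' hX' e => by
      by_contra ne
      refine h2 X hX X' hX' ne fun Z hZ => ?_
      by_cases c : r X = X.card <;> by_cases c' : r X' = X'.card
      · simp only [c, c', if_true, Option.some.injEq] at e
        exact ⟨key X' X Z (h1 _ hX') (h1 _ hX) hZ c' e.symm, key X X' Z (h1 _ hX) (h1 _ hX') hZ c e⟩
      · simp [c, c'] at e
      · simp [c, c'] at e
      · exact ⟨fun a => absurd (indep_sub h a subset_union_left) c,
          fun a => absurd (indep_sub h a subset_union_left) c'⟩)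
  rw [card_insertNone, card_powerset] at this
  have := Nat.pow_le_pow_right (show 0 < 2 by omega) cP
  omega

end Pool.Agent.H.MP_4792b2_co
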